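import Pool.Agent.H17.BD.Final

/-!
Fixed points of endomorphisms of free monoids: uniform test sets.
-/

set_option autoImplicit false
set_option linter.unusedSectionVars false

namespace Pool.Agent.H17.FX

variable {A : Type}

/-- extension to words -/
def ext (e : A → List A) (x : List A) : List A := x.flatMap e

theorem ext_append (e : A → List A) (x y : List A) : ext e (x ++ y) = ext e x ++ ext e y :=
  List.flatMap_append

theorem ext_nil (e : A → List A) : ext e [] = [] := rfl

theorem ext_cons (e : A → List A) (a : A) (x : List A) : ext e (a :: x) = e a ++ ext e x :=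
  List.flatMap_cons

theorem iter_append (e : A → List A) (t : ℕ) (x y : List A) :
    (ext e)^[t] (x ++ y) = (ext e)^[t] x ++ (ext e)^[t] y := by
  induction t generalizing x y with
  | zero => rfl
  | succ t ih =>
    rw [Function.iterate_succ_apply, Function.iterate_succ_apply, Function.iterate_succ_apply,
      ext_append, ih]

theorem iter_nil (e : A → List A) (t : ℕ) : (ext e)^[t] [] = [] := by
  induction t with
  | zero => rfl
  | succ t ih => rw [Function.iterate_succ_apply, ext_nil, ih]

theorem iter_mono (e : A → List A) {t u : ℕ} (htu : t ≤ u) {x : List A}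
    (h : (ext e)^[t] x = []) : (ext e)^[u] x = [] := by
  obtain ⟨k, rfl⟩ := Nat.exists_eq_add_of_le htu
  rw [Nat.add_comm, Function.iterate_add_apply, h, iter_nil]

/-- mortal letters -/
def Mort (e : A → List A) (a : A) : Prop := ∃ t : ℕ, (ext e)^[t] [a] = []

theorem iter_mem (e : A → List A) (t : ℕ) {x : List A} (h : (ext e)^[t] x = []) {a : A}
    (ha : a ∈ x) : (ext e)^[t] [a] = [] := by
  obtain ⟨p, q, rfl⟩ := List.append_of_mem ha
  have h1 : p ++ a :: q = p ++ ([a] ++ q) := rfl
  rw [h1, iter_append, iter_append] at h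
  have h2 := (List.append_eq_nil_iff.mp h).2
  exact (List.append_eq_nil_iff.mp h2).1

theorem mort_word (e : A → List A) (x : List A) (h : ∀ a ∈ x, Mort e a) :
    ∃ t : ℕ, (ext e)^[t] x = [] := by
  induction x with
  | nil => exact ⟨0, rfl⟩
  | cons a x ih =>
    obtain ⟨t, ht⟩ := ih (fun b hb => h b (List.mem_cons_of_mem _ hb))
    obtain ⟨u, hu⟩ := h a List.mem_cons_self
    refine ⟨max t u, ?_⟩
    have h1 : a :: x = [a] ++ x := rfl
    rw [h1, iter_append, iter_mono e (le_max_right t u) hu, iter_mono e (le_max_left t u) ht]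
    rfl

theorem mort_image {e : A → List A} {a b : A} (h : Mort e a) (hb : b ∈ e a) : Mort e b := by
  obtain ⟨t, ht⟩ := h
  have h1 : (ext e)^[t + 1] [a] = [] := iter_mono e (Nat.le_succ t) ht
  rw [Function.iterate_succ_apply] at h1
  have h2 : ext e [a] = e a := by rw [ext_cons, ext_nil, List.append_nil]
  rw [h2] at h1
  exact ⟨t, iter_mem e t h1 hb⟩

theorem nonmort_image {e : A → List A} {a : A} (h : ¬ Mort e a) : ∃ b ∈ e a, ¬ Mort e b := by
  by_contra hcon
  push Not at hcon
  obtain ⟨t, ht⟩ := mort_word e (e a) hcon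
  apply h
  refine ⟨t + 1, ?_⟩
  rw [Function.iterate_succ_apply]
  have h2 : ext e [a] = e a := by rw [ext_cons, ext_nil, List.append_nil]
  rw [h2, ht]

section fixedR

variable [DecidableEq A] (R : Finset A)

/-- the word of the letters in `R` -/
def pr (x : List A) : List A := x.filter (fun a => decide (a ∈ R))

theorem pr_append (x y : List A) : pr R (x ++ y) = pr R x ++ pr R y := List.filter_append ..

theorem pr_eq_nil {x : List A} : pr R x = [] ↔ ∀ a ∈ x, a ∉ R := by
  unfold pr
  rw [List.filter_eq_nil_iff]
  simp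

theorem pr_cons_mem {a : A} (ha : a ∈ R) (x : List A) : pr R (a :: x) = a :: pr R x := by
  unfold pr
  rw [List.filter_cons_of_pos (by simpa using ha)]

theorem pr_cons_not {a : A} (ha : a ∉ R) (x : List A) : pr R (a :: x) = pr R x := by
  unfold pr
  rw [List.filter_cons_of_neg (by simpa using ha)]

theorem split_unique : ∀ (p p' : List A) (c c' : A) (u u' : List A), c ∈ R → c' ∈ R →
    p ++ c :: u = p' ++ c' :: u' → (pr R p).length = (pr R p').length →
    p = p' ∧ c = c' ∧ u = u' := by
  intro p
  induction p with
  | nil =>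
    intro p' c c' u u' hc hc' h hl
    cases p' with
    | nil =>
      have := List.cons.inj h
      exact ⟨rfl, this.1, this.2⟩
    | cons b p' =>
      exfalso
      have h1 : c = b := (List.cons.inj h).1
      subst h1
      rw [pr_cons_mem R hc] at hl
      simp [pr] at hl
  | cons a p ih =>
    intro p' c c' u u' hc hc' h hl
    cases p' with
    | nil =>
      exfalso
      have h1 : a = c' := (List.cons.inj h).1
      subst h1
      rw [pr_cons_mem R hc'] at hl
      simp [pr] at hl
    | cons b p' =>
      have h1 : a = b := (List.cons.inj h).1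
      have h2 : p ++ c :: u = p' ++ c' :: u' := (List.cons.inj h).2
      subst h1
      have hl' : (pr R p).length = (pr R p').length := by
        by_cases ha : a ∈ R
        · rw [pr_cons_mem R ha, pr_cons_mem R ha] at hl
          simpa using hl
        · rw [pr_cons_not R ha, pr_cons_not R ha] at hl
          exact hl
      obtain ⟨e1, e2, e3⟩ := ih p' c c' u u' hc hc' h2 hl'
      exact ⟨by rw [e1], e2, e3⟩

theorem singles (φ : A → List A) : ∀ y : List A, (∀ a ∈ y, φ a ≠ []) → y.flatMap φ = y →
    ∀ a ∈ y, φ a = [a] := by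
  have hlen : ∀ y : List A, (∀ a ∈ y, φ a ≠ []) → y.length ≤ (y.flatMap φ).length := by
    intro y
    induction y with
    | nil => intro _; simp
    | cons a y ih =>
      intro h
      have h1 := ih (fun b hb => h b (List.mem_cons_of_mem _ hb))
      have h2 := List.length_pos_iff.mpr (h a List.mem_cons_self)
      rw [List.flatMap_cons, List.length_append, List.length_cons]
      omega
  intro y
  induction y with
  | nil => intro _ _ a ha; simp at ha
  | cons a y ih =>
    intro h hy b hb
    have h1 := hlen y (fun b hb => h b (List.mem_cons_of_mem _ hb))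
    have h2 := List.length_pos_iff.mpr (h a List.mem_cons_self)
    have h3 : (φ a).length = 1 := by
      have := congrArg List.length hy
      rw [List.flatMap_cons, List.length_append, List.length_cons] at this
      omega
    obtain ⟨c, hc⟩ := List.length_eq_one_iff.mp h3
    rw [List.flatMap_cons, hc] at hy
    have h4 := List.cons.inj hy
    have h5 : c = a := h4.1
    have h6 : y.flatMap φ = y := h4.2
    rcases List.mem_cons.mp hb with rfl | hb
    · rw [hc, h5]
    · exact ih (fun b hb => h b (List.mem_cons_of_mem _ hb)) h6 b hb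

variable {R} {e : A → List A} (hR : ∀ a, a ∈ R ↔ ¬ Mort e a)

include hR

theorem pr_image_mort {a : A} (ha : a ∉ R) : pr R (e a) = [] := by
  rw [pr_eq_nil]
  intro b hb hbR
  have h1 : Mort e a := by
    by_contra h
    exact ha ((hR a).mpr h)
  exact (hR b).mp hbR (mort_image h1 hb)

theorem pr_image_ne {a : A} (ha : a ∈ R) : pr R (e a) ≠ [] := by
  intro h
  rw [pr_eq_nil] at h
  obtain ⟨b, hb, hbm⟩ := nonmort_image ((hR a).mp ha)
  exact h b hb ((hR b).mpr hbm)

theorem pr_ext (x : List A) : pr R (ext e x) = (pr R x).flatMap (fun a => pr R (e a)) := by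
  induction x with
  | nil => rfl
  | cons a x ih =>
    rw [ext_cons, pr_append, ih]
    by_cases ha : a ∈ R
    · rw [pr_cons_mem R ha, List.flatMap_cons]
    · rw [pr_cons_not R ha, pr_image_mort hR ha, List.nil_append]

theorem pr_ext_nil {x : List A} (h : pr R x = []) : pr R (ext e x) = [] := by
  rw [pr_ext hR, h]
  rfl

theorem fixed_letters {x : List A} (hx : ext e x = x) {a : A} (ha : a ∈ x) (haR : a ∈ R) :
    pr R (e a) = [a] := by
  have h1 := pr_ext hR x
  rw [hx] at h1
  refine singles (fun a => pr R (e a)) (pr R x) ?_ h1.symm a ?_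
  · intro b hb
    have hb' : b ∈ R := by
      unfold pr at hb
      rw [List.mem_filter] at hb
      simpa using hb.2
    exact pr_image_ne hR hb'
  · unfold pr
    rw [List.mem_filter]
    exact ⟨ha, by simpa using haR⟩

theorem pr_ext_of_fixed {p : List A} (h : ∀ a ∈ p, a ∈ R → pr R (e a) = [a]) :
    pr R (ext e p) = pr R p := by
  induction p with
  | nil => rfl
  | cons a p ih =>
    rw [ext_cons, pr_append, ih (fun b hb => h b (List.mem_cons_of_mem _ hb))]
    by_cases ha : a ∈ R
    · rw [pr_cons_mem R ha, h a List.mem_cons_self ha]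
      rfl
    · rw [pr_cons_not R ha, pr_image_mort hR ha, List.nil_append]

omit hR in
theorem split_of_pr {y : List A} {c : A} (h : pr R y = [c]) :
    ∃ l m : List A, y = l ++ c :: m ∧ pr R l = [] ∧ pr R m = [] := by
  unfold pr at h
  obtain ⟨l, m, h1, h2, h3, h4⟩ := List.filter_eq_cons_iff.mp h
  refine ⟨l, m, h1, ?_, h4⟩
  rw [pr_eq_nil]
  intro a ha haR
  exact h2 a ha (by simpa using haR)

end fixedR

/-- an item is good for `e` -/
def Good [DecidableEq A] (R : Finset A) (e : A → List A) (c : A) (w : List A) (c' : A) : Prop :=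
  ∃ l m l' m' : List A, e c = l ++ c :: m ∧ e c' = l' ++ c' :: m' ∧ pr R l = [] ∧ pr R m = [] ∧
    pr R l' = [] ∧ pr R m' = [] ∧ w = m ++ (ext e w ++ l')

section items

variable [DecidableEq A] {R : Finset A} {e : A → List A} (hR : ∀ a, a ∈ R ↔ ¬ Mort e a)

include hR

theorem good_of_fixed {p w q : List A} {c c' : A} (hc : c ∈ R) (hc' : c' ∈ R)
    (hw : pr R w = []) (hx : ext e (p ++ c :: (w ++ c' :: q)) = p ++ c :: (w ++ c' :: q)) :
    Good R e c w c' := by
  obtain ⟨l, m, h1, h2, h3⟩ := split_of_pr (fixed_letters hR hx (a := c) (by simp) hc)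
  obtain ⟨l', m', h1', h2', h3'⟩ := split_of_pr (fixed_letters hR hx (a := c') (by simp) hc')
  refine ⟨l, m, l', m', h1, h1', h2, h3, h2', h3', ?_⟩
  have hp : pr R (ext e p) = pr R p :=
    pr_ext_of_fixed hR (fun a ha haR => fixed_letters hR hx (by simp [ha]) haR)
  have e1 : (ext e p ++ l) ++ c :: ((m ++ (ext e w ++ l')) ++ c' :: (m' ++ ext e q)) =
      p ++ c :: (w ++ c' :: q) := by
    rw [ext_append, ext_cons, ext_append, ext_cons, h1, h1'] at hx
    rw [← hx]
    simp
  have e2 := (split_unique R _ _ _ _ _ _ hc hc e1 (by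
    rw [pr_append, hp, h2, List.append_nil])).2.2
  have e3 := (split_unique R _ _ _ _ _ _ hc' hc' e2 (by
    rw [pr_append, pr_append, h3, h2', pr_ext_nil hR hw, hw]
    rfl)).1
  exact e3.symm

/-- the word in a good item is determined by its letters -/
theorem good_unique {w w' : List A} {c c' : A} (hc : c ∈ R) (hc' : c' ∈ R) (hw : pr R w = [])
    (hw' : pr R w' = []) (h : Good R e c w c') (h' : Good R e c w' c') : w = w' := by
  obtain ⟨l, m, l1, m1, a1, a2, a3, a4, a5, a6, a7⟩ := h
  obtain ⟨k, n, k1, n1, b1, b2, b3, b4, b5, b6, b7⟩ := h'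
  obtain ⟨-, -, e1⟩ := split_unique R l k c c m n hc hc (by rw [← a1, ← b1]) (by rw [a3, b3])
  obtain ⟨e2, -, -⟩ := split_unique R l1 k1 c' c' m1 n1 hc' hc' (by rw [← a2, ← b2])
    (by rw [a5, b5])
  subst e1
  subst e2
  have hm : ∀ v : List A, pr R v = [] → ∀ a ∈ v, Mort e a := by
    intro v hv a ha
    by_contra hcon
    exact (pr_eq_nil R).mp hv a ha ((hR a).mpr hcon)
  obtain ⟨t, ht⟩ := mort_word e w (hm w hw)
  obtain ⟨u, hu⟩ := mort_word e w' (hm w' hw')
  have key : ∀ k : ℕ, k ≤ max t u → (ext e)^[max t u - k] w = (ext e)^[max t u - k] w' := by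
    intro k
    induction k with
    | zero =>
      intro _
      rw [Nat.sub_zero, iter_mono e (le_max_left t u) ht, iter_mono e (le_max_right t u) hu]
    | succ k ih =>
      intro hk
      have ih' := ih (by omega)
      have hs : max t u - k = (max t u - (k + 1)) + 1 := by omega
      rw [hs, Function.iterate_succ_apply, Function.iterate_succ_apply] at ih'
      rw [a7, b7, iter_append, iter_append, iter_append, iter_append, ih']
  have := key (max t u) le_rfl
  rwa [Nat.sub_self] at this

omit hR in
theorem exists_first {y : List A} (h : pr R y ≠ []) :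
    ∃ (w : List A) (c : A) (q : List A), y = w ++ c :: q ∧ c ∈ R ∧ pr R w = [] := by
  induction y with
  | nil => exact absurd rfl h
  | cons a y ih =>
    by_cases ha : a ∈ R
    · exact ⟨[], a, y, rfl, ha, rfl⟩
    · rw [pr_cons_not R ha] at h
      obtain ⟨w, c, q, h1, h2, h3⟩ := ih h
      exact ⟨a :: w, c, q, by rw [h1]; rfl, h2, by rw [pr_cons_not R ha]; exact h3⟩

omit hR in
/-- a word beginning and ending with letters from `R` all whose items are good is fixed -/
theorem fixed_of_good {o : A} (ho : o ∈ R) (heo : e o = [o]) : ∀ (n : ℕ) (y : List A) (c : A),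
    y.length ≤ n → c ∈ R → (∃ z, c :: y = z ++ [o]) →
    (∀ (p : List A) (c1 : A) (w : List A) (c2 : A) (q : List A),
      c :: y = p ++ c1 :: (w ++ c2 :: q) → c1 ∈ R → c2 ∈ R → pr R w = [] → Good R e c1 w c2) →
    ∀ l m : List A, e c = l ++ c :: m → pr R l = [] → ext e (c :: y) = l ++ c :: y := by
  intro n
  induction n with
  | zero =>
    intro y c hy hc hz _ l m hl hpl
    have hy0 : y = [] := List.length_eq_zero_iff.mp (by omega)
    subst hy0
    obtain ⟨z, hz⟩ := hz
    have hco : c = o := by
      cases z with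
      | nil => exact (List.cons.inj hz).1
      | cons b z =>
        have := (List.cons.inj hz).2
        simp at this
    subst hco
    have h1 : l ++ c :: m = [] ++ c :: [] := by rw [← hl, heo]; rfl
    obtain ⟨h2, -, -⟩ := split_unique R l [] c c m [] hc hc h1 (by rw [hpl]; rfl)
    rw [h2, ext_cons, heo, ext_nil]
    rfl
  | succ n ih =>
    intro y c hy hc hz hitems l m hl hpl
    by_cases hpy : pr R y = []
    · have hy0 : y = [] := by
        by_contra hne
        obtain ⟨z, hz⟩ := hz
        cases z with
        | nil => exact hne (List.cons.inj hz).2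
        | cons b z =>
          have h1 : y = z ++ [o] := (List.cons.inj hz).2
          rw [h1, pr_eq_nil] at hpy
          exact hpy o (by simp) ho
      exact ih y c (by rw [hy0]; exact Nat.zero_le n) hc hz hitems l m hl hpl
    · obtain ⟨w, c', q, h1, h2, h3⟩ := exists_first hpy
      obtain ⟨l1, m1, l2, m2, a1, a2, a3, a4, a5, a6, a7⟩ :=
        hitems [] c w c' q (by rw [h1]; rfl) hc h2 h3
      have hrec : ext e (c' :: q) = l2 ++ c' :: q := by
        refine ih q c' ?_ h2 ?_ ?_ l2 m2 a2 a5
        · rw [h1, List.length_append, List.length_cons] at hy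
          omega
        · obtain ⟨z, hz⟩ := hz
          rw [h1] at hz
          have hz' : (c :: w) ++ (c' :: q) = z ++ [o] := by rw [← hz]; rfl
          rw [List.append_eq_append_iff] at hz'
          rcases hz' with ⟨a, ha1, ha2⟩ | ⟨a, ha1, ha2⟩
          · exact ⟨a, ha2⟩
          · cases a with
            | nil => exact ⟨[], by simpa using ha2.symm⟩
            | cons b a =>
              exfalso
              have := congrArg List.length ha2
              simp at this
        · intro p c1 w' c2 q' hp g1 g2 g3
          refine hitems ((c :: w) ++ p) c1 w' c2 q' ?_ g1 g2 g3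
          rw [List.append_assoc, ← hp, h1]
          rfl
      obtain ⟨e1, -, e3⟩ := split_unique R l l1 c c m m1 hc hc (by rw [← hl, ← a1])
        (by rw [hpl, a3])
      rw [h1, ext_cons, ext_append, hrec, hl, e1, e3]
      calc l1 ++ c :: m1 ++ (ext e w ++ (l2 ++ c' :: q))
          = l1 ++ c :: ((m1 ++ (ext e w ++ l2)) ++ c' :: q) := by simp
        _ = l1 ++ c :: (w ++ c' :: q) := by rw [← a7]

end items

end Pool.Agent.H17.FX
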