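import Pool.Agent.H17.FX.Core

/-!
Uniform test sets for fixed points: the ladder argument.
-/

set_option autoImplicit false
set_option linter.unusedSectionVars false

namespace Pool.Agent.H17.FX

variable {A : Type}

/-- a map with end markers -/
def hat (e : A → List A) : Option A → List (Option A)
  | none => [none]
  | some a => (e a).map some

/-- a word with end markers -/
def hw (x : List A) : List (Option A) := none :: (x.map some ++ [none])

theorem ext_map (e : A → List A) (x : List A) :
    ext (hat e) (x.map some) = (ext e x).map some := by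
  induction x with
  | nil => rfl
  | cons a x ih =>
    rw [List.map_cons, ext_cons, ih, ext_cons, List.map_append]
    rfl

theorem ext_hw (e : A → List A) (x : List A) : ext (hat e) (hw x) = hw (ext e x) := by
  unfold hw
  rw [ext_cons, ext_append, ext_map, ext_cons, ext_nil]
  rfl

theorem hw_inj {x y : List A} (h : hw x = hw y) : x = y := by
  unfold hw at h
  have h1 := (List.cons.inj h).2
  have h2 := List.append_cancel_right h1
  exact List.map_injective_iff.mpr (Option.some_injective A) h2

theorem fixed_iff (e : A → List A) (x : List A) : ext e x = x ↔ ext (hat e) (hw x) = hw x := by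
  rw [ext_hw]
  exact ⟨fun h => by rw [h], fun h => hw_inj h⟩

theorem none_nonmort (e : A → List A) : ¬ Mort (hat e) none := by
  rintro ⟨t, ht⟩
  have h : ∀ t : ℕ, (ext (hat e))^[t] [none] = [none] := by
    intro t
    induction t with
    | zero => rfl
    | succ t ih =>
      rw [Function.iterate_succ_apply]
      have : ext (hat e) [none] = [none] := by rw [ext_cons, ext_nil]; rfl
      rw [this, ih]
  rw [h t] at ht
  simp at ht

theorem ladder_fixed [Fintype A] [DecidableEq A] (R : Finset A) (J : Finset ℕ)
    (x : ℕ → List A) (e : ℕ → A → List A)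
    (hR : ∀ j ∈ J, ∀ o : Option A, o ∈ Finset.insertNone R ↔ ¬ Mort (hat (e j)) o)
    (hlad : ∀ i ∈ J, ∀ j ∈ J, i < j → ext (e j) (x i) = x i)
    (hnot : ∀ j ∈ J, ext (e j) (x j) ≠ x j) :
    J.card ≤ (Fintype.card A + 1) ^ 2 + 1 := by
  classical
  have hno : (none : Option A) ∈ Finset.insertNone R := by simp
  have hitem : ∀ j ∈ J, ∃ t : Option A × List (Option A) × Option A,
      (t.1 ∈ Finset.insertNone R ∧ t.2.2 ∈ Finset.insertNone R ∧
        pr (Finset.insertNone R) t.2.1 = []) ∧
      (∃ p q, hw (x j) = p ++ t.1 :: (t.2.1 ++ t.2.2 :: q)) ∧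
      ¬ Good (Finset.insertNone R) (hat (e j)) t.1 t.2.1 t.2.2 := by
    intro j hj
    by_contra hcon
    push Not at hcon
    apply hnot j hj
    rw [fixed_iff]
    have h1 := fixed_of_good (R := Finset.insertNone R) (e := hat (e j)) hno rfl
      ((x j).map some ++ [none]).length ((x j).map some ++ [none]) none le_rfl hno
      ⟨none :: (x j).map some, rfl⟩ (by
        intro p c1 w c2 q hp h1 h2 h3
        exact hcon (c1, w, c2) ⟨h1, h2, h3⟩ ⟨p, q, hp⟩) [] [] rfl rfl
    exact h1
  choose! t ht1 ht2 ht3 using hitem
  have hgood : ∀ i ∈ J, ∀ j ∈ J, i < j →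
      Good (Finset.insertNone R) (hat (e j)) (t i).1 (t i).2.1 (t i).2.2 := by
    intro i hi j hj hij
    obtain ⟨p, q, hpq⟩ := ht2 i hi
    obtain ⟨h1, h2, h3⟩ := ht1 i hi
    refine good_of_fixed (hR j hj) (p := p) (q := q) h1 h2 h3 ?_
    rw [← hpq, ← fixed_iff]
    exact hlad i hi j hj hij
  rcases J.eq_empty_or_nonempty with rfl | hne
  · simp
  · have hcard : (J.erase (J.max' hne)).card ≤ (Finset.univ : Finset (Option A × Option A)).card := by
      apply Finset.card_le_card_of_injOn (fun i => ((t i).1, (t i).2.2))
      · intro i _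
        simp
      · have key : ∀ i ∈ J.erase (J.max' hne), ∀ k ∈ J.erase (J.max' hne),
            ((t i).1, (t i).2.2) = ((t k).1, (t k).2.2) → ¬ i < k := by
          intro i hi k hk heq hik
          have hiJ := Finset.mem_of_mem_erase hi
          have hkJ := Finset.mem_of_mem_erase hk
          have hkm : k < J.max' hne :=
            lt_of_le_of_ne (Finset.le_max' J k hkJ) (Finset.ne_of_mem_erase hk)
          have h1 : (t i).1 = (t k).1 := (Prod.mk.inj heq).1
          have h2 : (t i).2.2 = (t k).2.2 := (Prod.mk.inj heq).2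
          have g1 := hgood i hiJ _ (Finset.max'_mem J hne) (hik.trans hkm)
          have g2 := hgood k hkJ _ (Finset.max'_mem J hne) hkm
          rw [h1, h2] at g1
          have h3 : (t i).2.1 = (t k).2.1 :=
            good_unique (hR _ (Finset.max'_mem J hne)) (ht1 k hkJ).1 (ht1 k hkJ).2.1
              (ht1 i hiJ).2.2 (ht1 k hkJ).2.2 g1 g2
          have g3 := hgood i hiJ k hkJ hik
          rw [h1, h2, h3] at g3
          exact ht3 k hkJ g3
        intro i hi k hk heq
        rcases lt_trichotomy i k with h | h | h
        · exact absurd h (key i hi k hk heq)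
        · exact h
        · exact absurd h (key k hk i hi heq.symm)
    rw [Finset.card_erase_of_mem (Finset.max'_mem J hne), Finset.card_univ, Fintype.card_prod,
      Fintype.card_option] at hcard
    have h2 : (Fintype.card A + 1) * (Fintype.card A + 1) = (Fintype.card A + 1) ^ 2 := by ring
    omega

/-- **Uniform test sets for fixed points.** -/
theorem fixed_list [Fintype A] (L : Set (List A)) :
    ∃ F : Finset (List A), (F : Set (List A)) ⊆ L ∧
      F.card ≤ 2 ^ Fintype.card A * ((Fintype.card A + 1) ^ 2 + 1) ∧
      ∀ e : A → List A, (∀ f ∈ F, ext e f = f) → ∀ x ∈ L, ext e x = x := by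
  classical
  have h : ∀ R : Finset A, ∃ F : Finset (List A), (F : Set (List A)) ⊆ L ∧
      F.card ≤ (Fintype.card A + 1) ^ 2 + 1 ∧
      ∀ e : {e : A → List A // ∀ o : Option A, o ∈ Finset.insertNone R ↔ ¬ Mort (hat e) o},
        (∀ f ∈ F, ext e.1 f = f) → ∀ x ∈ L, ext e.1 x = x := by
    intro R
    exact BD.exists_test (fun (x : List A)
      (e : {e : A → List A // ∀ o : Option A, o ∈ Finset.insertNone R ↔ ¬ Mort (hat e) o}) =>
        ext e.1 x = x) _
      (fun J x w h1 h2 => ladder_fixed R J x (fun j => (w j).1) (fun j _ => (w j).2) h1 h2) L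
  choose F hFL hFc hF using h
  refine ⟨Finset.univ.biUnion F, ?_, ?_, ?_⟩
  · intro x hx
    obtain ⟨R, -, hR⟩ := Finset.mem_biUnion.mp (Finset.mem_coe.mp hx)
    exact hFL R hR
  · refine Finset.card_biUnion_le.trans ?_
    refine (Finset.sum_le_card_nsmul _ _ _ (fun R _ => hFc R)).trans ?_
    rw [Finset.card_univ, Fintype.card_finset, smul_eq_mul]
  · intro e he x hx
    refine hF (Finset.univ.filter (fun a => ¬ Mort (hat e) (some a))) ⟨e, ?_⟩ ?_ x hx
    · intro o
      cases o with
      | none => simpa using none_nonmort e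
      | some a => simp
    · intro f hf
      exact he f (Finset.mem_biUnion.mpr ⟨_, Finset.mem_univ _, hf⟩)

end Pool.Agent.H17.FX
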